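import Mathlib
import Pool.Agent.R120.AntichainDef
import Pool.Agent.R120.AmalgDef
import Pool.Agent.R120.Amalg

set_option autoImplicit false

namespace Pool.Agent.Results.MP_80b08f_co.InfinitelyMany

open Pool.Agent.R120.Antichain Pool.Agent.R120.Amalg

/-- There are infinitely many permutation classes (even infinitely many infinite ones) that are
both 1-amalgamable and splittable. -/
theorem result : {C : Set AllPerms | C.Infinite ∧ IsClass C ∧ OneAmalgamable C ∧
    Splittable C}.Infinite := main

end Pool.Agent.Results.MP_80b08f_co.InfinitelyMany
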